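import Pool.Agent.H484.AL.Stm

set_option autoImplicit false

namespace Pool.Agent.H484.AL

open Finset
open scoped Classical

theorem np_mem_lt {e g B J : ℕ} {α j l : Fin e → ℕ} (hB : 1 ≤ B) (hj : j ∈ jset e J)
    (hl : l ∈ Lset e g B α j) (i : Fin e) : l i ≤ 2 * B ^ (5 * J) := by
  have h1 := (Fintype.mem_piFinset.1 (Finset.mem_filter.1 hl).1) i
  have h2 := (Fintype.mem_piFinset.1 hj) i
  rw [Finset.mem_Ico] at h1 h2
  have h3 : B ^ (j i) ≤ B ^ (5 * J) := Nat.pow_le_pow_right hB (by omega)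
  omega

theorem t_NP (hPAIR : S_PAIR) (hKAP : S_KAP) : S_NP := by
  intro e B g M a0 J α hR t t' j j' ht ht' hj hj' l hl l' hl' hnp
  have hB : 64 ≤ B := hR.hB
  have hB1 : 1 ≤ B := by omega
  have hJ : 1 ≤ J := hR.hJ
  have he : 2 ≤ e := hR.he
  have hM : 1 ≤ M := by
    have h1 : 0 < B ^ (40 * e * J) := Nat.pow_pos (by omega)
    have h2 := hR.hN
    rcases Nat.eq_zero_or_pos M with h | h
    · subst h
      simp only [Nat.mul_zero] at h2
      omega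
    · exact h
  obtain ⟨-, -, hk3, -⟩ := hKAP e B g M a0 J α hR t j ht hj
  obtain ⟨-, -, hk3', -⟩ := hKAP e B g M a0 J α hR t' j' ht' hj'
  set κ := kap e (g * M) B t j with hκ
  set κ' := kap e (g * M) B t' j' with hκ'
  -- a non parallel pair of coordinates
  have hpq : ∃ p q, l p * l' q ≠ l q * l' p := by
    unfold Par at hnp
    push Not at hnp
    exact hnp
  obtain ⟨p, q, hpq⟩ := hpq
  have hne : p ≠ q := by
    intro h
    subst h
    exact hpq rfl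
  have hD0 : (l p : ℤ) * l' q - l q * l' p ≠ 0 := by
    intro h
    apply hpq
    have : (l p : ℤ) * l' q = l q * l' p := by linarith
    exact_mod_cast this
  have hlt := np_mem_lt hB1 hj hl
  have hlt' := np_mem_lt hB1 hj' hl'
  have hb : ∀ i i', l i * l' i' ≤ 4 * B ^ (10 * J) := by
    intro i i'
    calc l i * l' i' ≤ (2 * B ^ (5 * J)) * (2 * B ^ (5 * J)) := Nat.mul_le_mul (hlt i) (hlt' i')
      _ = 4 * B ^ (10 * J) := by
        have : 10 * J = 5 * J + 5 * J := by ring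
        rw [this, pow_add]
        ring
  have hD : |(l p : ℤ) * l' q - l q * l' p| ≤ ((4 * B ^ (10 * J) : ℕ) : ℤ) := by
    have h1 : (l p : ℤ) * l' q ≤ ((4 * B ^ (10 * J) : ℕ) : ℤ) := by exact_mod_cast hb p q
    have h2 : (l q : ℤ) * l' p ≤ ((4 * B ^ (10 * J) : ℕ) : ℤ) := by exact_mod_cast hb q p
    have h3 : (0 : ℤ) ≤ (l p : ℤ) * l' q := by positivity
    have h4 : (0 : ℤ) ≤ (l q : ℤ) * l' p := by positivity
    rw [abs_le]
    constructor <;> linarith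
  have hcard := hPAIR e g M a0 α l l' κ κ κ' κ' (4 * B ^ (10 * J)) p q hR.hg hM hR.ha hne hD0 hD
  -- the error term
  have hbig : 4 * B ^ (10 * J) * B ^ J ≤ B ^ (34 * e * J) := by
    have h4 : 4 ≤ B ^ J := by
      calc 4 ≤ B := by omega
        _ = B ^ 1 := (pow_one B).symm
        _ ≤ B ^ J := Nat.pow_le_pow_right hB1 hJ
    calc 4 * B ^ (10 * J) * B ^ J ≤ B ^ J * B ^ (10 * J) * B ^ J := by
          exact Nat.mul_le_mul_right _ (Nat.mul_le_mul_right _ h4)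
      _ = B ^ (12 * J) := by
        rw [← pow_add, ← pow_add]
        congr 1
        ring
      _ ≤ B ^ (34 * e * J) := by
        apply Nat.pow_le_pow_right hB1
        apply Nat.mul_le_mul_right
        omega
  have hBJ : (0 : ℝ) < (B : ℝ) ^ J := by
    have : (0 : ℝ) < (B : ℝ) := by exact_mod_cast hB1
    positivity
  have hkap : ∀ x : ℕ, B ^ (34 * e * J) ≤ x →
      ((x + 4 * B ^ (10 * J) : ℕ) : ℝ) ≤ (1 + 1 / (B : ℝ) ^ J) * (x : ℝ) := by
    intro x hx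
    have h1 : 4 * B ^ (10 * J) * B ^ J ≤ x := hbig.trans hx
    have h2 : (4 * (B : ℝ) ^ (10 * J)) * (B : ℝ) ^ J ≤ (x : ℝ) := by exact_mod_cast h1
    have h3 : 4 * (B : ℝ) ^ (10 * J) ≤ (x : ℝ) / (B : ℝ) ^ J := by
      rw [le_div_iff₀ hBJ]
      exact h2
    push_cast
    have h4 : (1 + 1 / (B : ℝ) ^ J) * (x : ℝ) = (x : ℝ) + (x : ℝ) / (B : ℝ) ^ J := by ring
    rw [h4]
    linarith
  have hcard' : ((univ.filter (fun b : Fin e → Fin M =>
      EvC e g M a0 B α (fun i => (b i : ℕ)) t j l ∧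
      EvC e g M a0 B α (fun i => (b i : ℕ)) t' j' l')).card : ℝ) ≤
      ((κ + 4 * B ^ (10 * J) : ℕ) : ℝ) * ((κ' + 4 * B ^ (10 * J) : ℕ) : ℝ) * (M : ℝ) ^ (e - 2) := by
    exact_mod_cast hcard
  refine hcard'.trans ?_
  have hMe : (0 : ℝ) ≤ (M : ℝ) ^ (e - 2) := by positivity
  refine mul_le_mul_of_nonneg_right ?_ hMe
  have h5 := mul_le_mul (hkap κ hk3) (hkap κ' hk3') (by positivity) (by positivity)
  calc ((κ + 4 * B ^ (10 * J) : ℕ) : ℝ) * ((κ' + 4 * B ^ (10 * J) : ℕ) : ℝ)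
      ≤ (1 + 1 / (B : ℝ) ^ J) * (κ : ℝ) * ((1 + 1 / (B : ℝ) ^ J) * (κ' : ℝ)) := h5
    _ = (1 + 1 / (B : ℝ) ^ J) ^ 2 * ((κ : ℝ) * (κ' : ℝ)) := by ring

end Pool.Agent.H484.AL
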