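import Pool.Agent.H308.AL.Stm

/-!
# `StarCont` families: products, adjoints, uniform limits (`S_SC2`), by helper249 for helper308
-/

set_option autoImplicit false

open Filter Topology

namespace Pool.Agent.H249.AL

open Pool.Agent.H308.AL

section

variable {H : Type} [NormedAddCommGroup H] [InnerProductSpace ℂ H] [CompleteSpace H]
  {X : Type} [TopologicalSpace X]

theorem cont_app (A : X → H →L[ℂ] H) (M : ℝ) (hM : ∀ s, ‖A s‖ ≤ M)
    (hA : ∀ x, Continuous fun s => A s x) (g : X → H) (hg : Continuous g) :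
    Continuous fun s => A s (g s) := by
  rw [continuous_iff_continuousAt]
  intro s0
  have h1 : Tendsto (fun s => A s (g s - g s0)) (𝓝 s0) (𝓝 0) := by
    have h2 : Tendsto (fun s => M * ‖g s - g s0‖) (𝓝 s0) (𝓝 0) := by
      have h3 : Tendsto (fun s => M * ‖g s - g s0‖) (𝓝 s0) (𝓝 (M * ‖g s0 - g s0‖)) :=
        ((hg.sub continuous_const).norm.const_smul M).tendsto s0
      rwa [sub_self, norm_zero, mul_zero] at h3
    refine squeeze_zero_norm (fun s => ?_) h2
    exact ((A s).le_opNorm _).trans (mul_le_mul_of_nonneg_right (hM s) (norm_nonneg _))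
  have h4 : Tendsto (fun s => A s (g s0)) (𝓝 s0) (𝓝 (A s0 (g s0))) := (hA (g s0)).tendsto s0
  have h5 := h1.add h4
  rw [zero_add] at h5
  refine h5.congr fun s => ?_
  rw [← map_add, sub_add_cancel]

theorem cont_lim (A : X → H →L[ℂ] H) (x : H)
    (h : ∀ ε : ℝ, 0 < ε → ∃ D : X → H →L[ℂ] H, (Continuous fun s => D s x) ∧
      ∀ s, ‖A s - D s‖ ≤ ε) : Continuous fun s => A s x := by
  apply continuous_of_uniform_approx_of_continuous
  intro u hu
  obtain ⟨ε, hε, hu'⟩ := Metric.mem_uniformity_dist.1 hu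
  have hx : 0 < ‖x‖ + 1 := by positivity
  obtain ⟨D, hD, hAD⟩ := h (ε / (‖x‖ + 1)) (div_pos hε hx)
  refine ⟨fun s => D s x, hD, fun s => hu' ?_⟩
  rw [dist_eq_norm]
  have h1 : ‖A s x - D s x‖ ≤ ε / (‖x‖ + 1) * ‖x‖ := by
    have h2 := (A s - D s).le_opNorm x
    rw [sub_apply] at h2
    exact h2.trans (mul_le_mul_of_nonneg_right (hAD s) (norm_nonneg _))
  refine lt_of_le_of_lt h1 ?_
  rw [div_mul_eq_mul_div, div_lt_iff₀ hx]
  nlinarith

end

theorem sc2 : S_SC2 := by
  intro H _ _ _ X _ A B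
  refine ⟨fun hA hB => ?_, fun hA => ?_, fun h => ?_⟩
  · obtain ⟨M, hM⟩ := hA.bdd
    obtain ⟨N, hN⟩ := hB.bdd
    refine ⟨⟨M * N, fun s => ?_⟩, fun x => ?_, fun x => ?_⟩
    · exact (norm_mul_le _ _).trans (mul_le_mul (hM s) (hN s) (norm_nonneg _)
        ((norm_nonneg _).trans (hM s)))
    · exact cont_app A M hM hA.cont (fun s => B s x) (hB.cont x)
    · have h1 : ∀ s, ‖star (B s)‖ ≤ N := fun s => by
        rw [norm_star]
        exact hN s
      have h2 := cont_app (fun s => star (B s)) N h1 hB.cont' (fun s => star (A s) x) (hA.cont' x)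
      refine h2.congr fun s => ?_
      rw [star_mul]
      rfl
  · obtain ⟨M, hM⟩ := hA.bdd
    refine ⟨⟨M, fun s => ?_⟩, hA.cont', fun x => ?_⟩
    · rw [norm_star]
      exact hM s
    · refine (hA.cont x).congr fun s => ?_
      rw [star_star]
  · refine ⟨?_, fun x => ?_, fun x => ?_⟩
    · obtain ⟨D, hD, hAD⟩ := h 1 one_pos
      obtain ⟨M, hM⟩ := hD.bdd
      refine ⟨1 + M, fun s => ?_⟩
      have h1 : A s = (A s - D s) + D s := (sub_add_cancel _ _).symm
      rw [h1]
      exact (norm_add_le _ _).trans (add_le_add (hAD s) (hM s))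
    · refine cont_lim A x fun ε hε => ?_
      obtain ⟨D, hD, hAD⟩ := h ε hε
      exact ⟨D, hD.cont x, hAD⟩
    · refine cont_lim (fun s => star (A s)) x fun ε hε => ?_
      obtain ⟨D, hD, hAD⟩ := h ε hε
      refine ⟨fun s => star (D s), hD.cont' x, fun s => ?_⟩
      rw [← star_sub, norm_star]
      exact hAD s

end Pool.Agent.H249.AL
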